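import Pool.Agent.X180.TP.Defs
import Pool.Agent.X180.Multi.Fib
import Pool.Agent.X180.Tow.Chain

/-!
Abundance for towers of fibrations over products of projective spaces: the proof.
-/

set_option autoImplicit false

open FF Module Pool.Agent.W602.Cov Pool.Agent.W602.GT Pool.Agent.Y172 Pool.Agent.Y191

namespace Pool.Agent.X180.TP

theorem exists_idx {c : ℕ} (r q : Fin c → ℕ) (w : ∀ j, Fin (q j) → ℚ) :
    ∃ κ : Fin (big r q w) → Σ j, Fin (r j), Function.Injective κ ∧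
      ∀ i, (r (κ i).1 + 1 : ℚ) < ∑ i', w (κ i).1 i' := by
  classical
  have h1 : Fintype.card {x : Σ j, Fin (r j) // (r x.1 + 1 : ℚ) < ∑ i, w x.1 i} = big r q w := by
    rw [Fintype.card_subtype, Finset.card_filter, Fintype.sum_sigma]
    refine Finset.sum_congr rfl fun j _ => ?_
    change ∑ _k : Fin (r j), (if (r j + 1 : ℚ) < ∑ i, w j i then 1 else 0) = _
    rw [Finset.sum_const, Finset.card_univ, Fintype.card_fin, smul_eq_mul, mul_ite, mul_one,
      mul_zero]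
  let φ := Fintype.equivFinOfCardEq h1
  exact ⟨fun i => (φ.symm i : Σ j, Fin (r j)), fun a b hab => φ.symm.injective (Subtype.ext hab),
    fun i => (φ.symm i).2⟩

theorem abundance_of {K : Type} [Field K] [Algebra ℂ K] {N p c : ℕ} {y : Fin (N + 1) → K}
    {r s : Fin c → ℕ} {w : ∀ j, Fin (s j) → ℚ} {L : IntermediateField ℂ K}
    (hy : IsCanonicalVariety y (p + ∑ j, r j)) {K' : Type} [Field K'] [Algebra ℂ K']
    [Algebra K K'] [IsScalarTower ℂ K K'] [FiniteDimensional K K']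
    {A : ∀ j, Fin (s j) → Fin (r j + 1) → K'}
    {u : (Σ j, Fin (r j)) → K'} (hw : ∀ j, 1 ≤ r j ∧ ∀ i, 0 ≤ w j i ∧ w j i ≤ 1)
    (hA : LcArr (upF K' L) A w) (hu : IsTranscendenceBasis (upF K' L) u)
    (hC : RamK K (upF K' L) A u w)
    (hK : (∀ j, (r j + 1 : ℚ) ≤ ∑ i, w j i) → KodairaGe (p + ∑ j, r j) {P | IsPrimeDivisor y P}
      (fun _ => 0) (p + big r s w)) : Abundance y (p + ∑ j, r j) p r s w := by
  have h00 : Effective y (0 : Place ℂ K → ℚ) := ⟨fun _ _ => le_rfl, by simp⟩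
  obtain ⟨h1, h2⟩ := lc_ab hy.1 hy.2.1 h00 hA.1 hu (fun j => (hw j).1)
    (fun j i => ((hw j).2 i).1) (fun j i => ((hw j).2 i).2) (hC.cor hy.2.1 hy.2.2 hu)
  refine ⟨fun h => h2 (p + big r s w) h ?_ ?_, h1⟩
  · rw [add_assoc, big, ← Finset.sum_add_distrib]
    congr 1
    refine Finset.sum_congr rfl fun j _ => ?_
    rcases lt_or_eq_of_le (h j) with h3 | h3
    · rw [if_pos h3, if_neg h3.ne', add_zero]
    · rw [if_neg (not_lt.2 h3.symm.le), if_pos h3.symm, zero_add]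
  · have h3 := hK h
    have h4 : (fun P => (((0 : Place ℂ K → ℚ) P : ℚ) : ℝ)) = fun _ : Place ℂ K => (0 : ℝ) :=
      funext fun P => Rat.cast_zero
    rw [h4]
    exact h3

theorem nonvanishing_of {K : Type} [Field K] [Algebra ℂ K] {N n k c : ℕ} {y : Fin (N + 1) → K}
    {r s : Fin c → ℕ} {w : ∀ j, Fin (s j) → ℚ} {L : IntermediateField ℂ K}
    (hy : IsCanonicalVariety y n) (hle : ∑ j, r j ≤ n) {K' : Type} [Field K'] [Algebra ℂ K']
    [Algebra K K'] [IsScalarTower ℂ K K'] [FiniteDimensional K K']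
    {A : ∀ j, Fin (s j) → Fin (r j + 1) → K'}
    {u : (Σ j, Fin (r j)) → K'} (hw : ∀ j, 1 ≤ r j ∧ ∀ i, 0 ≤ w j i ∧ w j i ≤ 1)
    (hA : LcArr (upF K' L) A w) (hu : IsTranscendenceBasis (upF K' L) u)
    (hC : RamK K (upF K' L) A u w)
    (hK : (∀ j, (r j + 1 : ℚ) ≤ ∑ i, w j i) → KodairaGe n {P | IsPrimeDivisor y P}
      (fun _ => 0) k) : Nonvanishing y n k r s w := by
  have h00 : Effective y (0 : Place ℂ K → ℚ) := ⟨fun _ _ => le_rfl, by simp⟩
  refine ⟨fun hws => ?_, (lc_ab hy.1 hy.2.1 h00 hA.1 hu (fun j => (hw j).1)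
    (fun j i => ((hw j).2 i).1) (fun j i => ((hw j).2 i).2) (hC.cor hy.2.1 hy.2.2 hu)).1⟩
  refine lc_nv hy.1 hy.2.1 h00 hA.1 hu (fun j => (hw j).1)
    (fun j i => ((hw j).2 i).1) (fun j i => ((hw j).2 i).2) (hC.cor hy.2.1 hy.2.2 hu) hws
    hle ?_
  have h4 : (fun P => (((0 : Place ℂ K → ℚ) P : ℚ) : ℝ)) = fun _ : Place ℂ K => (0 : ℝ) :=
    funext fun P => Rat.cast_zero
  rw [h4]
  exact hK hws


/-- the forms along the fibres of log general type -/
theorem forms_of {F : Type} [Field F] [Algebra ℂ F] {d e : ℕ} {L : IntermediateField ℂ F}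
    (hL : Algebra.trdeg ℂ L = d) (hE : Algebra.trdeg ℂ F = (d + e : ℕ))
    (h : GeneralTypeFibres F L (d + e) e) : Pool.Agent.X180.Tow.HasForms (d + e)
      {p : Place ℂ F | Divisorial (d + e) p} (fun _ => 0) L e e := by
  obtain ⟨c, r, s, w, rfl, hw, K', _, _, _, _, _, A, u, hA, hu, hH⟩ := h
  have hb : big r s w = ∑ j, r j := Finset.sum_congr rfl fun j _ => if_pos (hw j).2.2
  obtain ⟨κ, hκ, hκs⟩ := exists_idx r s w
  have h1 := lc_low (N := d + ∑ j, r j) (X := {p : Place ℂ F | Divisorial (d + ∑ j, r j) p})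
    (δ := fun _ => 0)
    (Pool.Agent.X180.Iso.trdeg_rel' hE hL) hA finSigmaFinEquiv hu
    (fun j => (hw j).2.1) (fun j => (hw j).2.2.le) hκ hκs (fun _ _ => le_rfl) hH
  rw [hb] at h1
  exact h1

/-- the forms along the fibres which dominate a constant variety -/
theorem forms_of_dominates {F : Type} [Field F] [Algebra ℂ F] {d e : ℕ}
    {L : IntermediateField ℂ F} (hL : Algebra.trdeg ℂ L = d)
    (hE : Algebra.trdeg ℂ F = (d + e : ℕ)) (h : DominatesConstant F L e) :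
    Pool.Agent.X180.Tow.HasForms (d + e)
      {p : Place ℂ F | Divisorial (d + e) p} (fun _ => 0) L e e := by
  obtain ⟨K', _, _, _, _, α, M, hα, htop, _, hM, hk, hdom⟩ := h
  have hfin : FiniteDimensional F K' := Pool.Agent.X180.Iso.fin_of_top hα htop
  have h1 : Algebra.trdeg L F = e := Pool.Agent.X180.Iso.trdeg_rel hE hL
  exact Pool.Agent.X180.Iso.fib_forms hE h1 hα htop M hM
    (fun z => Pool.Agent.X180.Iso.alg_acl M (hdom z)) hk _

theorem dims {l : ℕ} {D : Fin (l + 1) → ℕ} {e : Fin l → ℕ}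
    (h : ∀ i : Fin l, D i.succ = D i.castSucc + e i) : D (Fin.last l) = D 0 + ∑ i, e i := by
  induction l with
  | zero => simp
  | succ l ih =>
    rw [Fin.sum_univ_castSucc, ← add_assoc, ← Fin.succ_last, h]
    congr 1
    exact ih (D := fun i => D i.castSucc) (e := fun i => e i.castSucc) fun i => h i.castSucc

/-- the forms along the fibres of the steps of the tower -/
theorem forms_step {F : Type} [Field F] [Algebra ℂ F] {D d e : ℕ}
    {L : IntermediateField ℂ F} (hL : Algebra.trdeg ℂ L = d) (hE : Algebra.trdeg ℂ F = D)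
    (hD : D = d + e) (h : GeneralTypeFibres F L D e ∨ DominatesConstant F L e) :
    Pool.Agent.X180.Tow.HasForms (d + e)
      {p : Place ℂ F | Divisorial (d + e) p} (fun _ => 0) L e e := by
  subst hD
  rcases h with h | h
  · exact forms_of hL hE h
  · exact forms_of_dominates hL hE h

/-- **Towers.** -/
theorem tower_forms {K : Type} [Field K] [Algebra ℂ K] {N e' lam' l : ℕ}
    {X : Set (Place ℂ K)} {δ : Place ℂ K → ℝ} {E : Fin (l + 1) → IntermediateField ℂ K}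
    {D : Fin (l + 1) → ℕ} {e : Fin l → ℕ} (hT : IsTower E D e) (hN : Algebra.trdeg ℂ K = N)
    (hNe : N = D (Fin.last l) + e')
    (h0 : Pool.Agent.X180.Tow.HasForms N X δ (E (Fin.last l)) e' lam') :
    Pool.Agent.X180.Tow.HasForms N X δ (E 0) (∑ i, e i + e') (∑ i, e i + lam') :=
  Pool.Agent.X180.Tow.chain (lam := e) hN l E (fun i => (hT.2 i).1)
    (fun i => (hT.1 i.succ).1) D (fun i => (hT.1 i).2) e (fun i => (hT.2 i).2.1) hNe
    (fun i => forms_step (Pool.Agent.X180.Tow.trdeg_dn (hT.2 i).1 (hT.1 _).2) (hT.1 _).2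
      (hT.2 i).2.1 (hT.2 i).2.2) h0

theorem base_kod {m s lam N : ℕ} {n q : Fin m → ℕ} {K : Type} [Field K] [Algebra ℂ K]
    {y : Fin (N + 1) → K} {ℓ : ∀ i, Fin (q i) → Form (n i)}
    (hn : ∀ i, 1 ≤ n i) (hℓ : ∀ i k, ℓ i k ≠ 0) (hr : ∀ i, ¬ Reducible (ℓ i)) {d : Fin m → ℕ}
    (hd : ∀ i, Bound (ℓ i) (d i)) {x : ∀ i, Fin (n i + 1) → K} (hx0 : ∀ i, x i 0 ≠ 0)
    (hind : AlgebraicIndependent ℂ (affine x)) (hK : Algebra.trdeg ℂ K = (∑ i, n i + s : ℕ))
    (hm : Multiplicities y ℓ x d fun z => 1 ≤ z)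
    (hθ : ∃ M : ℕ, 0 < M ∧ ∃ θ : Fin (lam + 1) → (Fin s → Derivation (BaseField x) K K) → K,
      (∀ b, Pool.Agent.TH585.SV.FibSec (∑ i, n i + s) M {P | IsPrimeDivisor y P} (fun _ => 0)
        (BaseField x) (θ b)) ∧ ∃ G, θ 0 G ≠ 0 ∧
        AlgebraicIndependent (BaseField x) (fun i : Fin lam => θ i.succ G / θ 0 G)) :
    KodairaGe (∑ i, n i + s) {P | IsPrimeDivisor y P} (fun _ => 0) lam ∧
      (Multiplicities y ℓ x d (fun z => 1 < z) →
        KodairaGe (∑ i, n i + s) {P | IsPrimeDivisor y P} (fun _ => 0) (∑ i, n i + lam)) := by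
  classical
  obtain ⟨M, hM, θ, hθ, hne⟩ := hθ
  have hd' : ∀ i, Pool.Agent.TH756.PR.Bnd (ℓ i) (d i) := fun i =>
    (hd i).imp id fun h => ⟨h.1, Or.inr h.2⟩
  have hd1 : ∀ i, 1 ≤ d i := fun i => by
    rcases hd i with h | h
    · omega
    · omega
  have hspan : ∀ i, Submodule.span ℂ (Set.range (ℓ i)) = ⊤ := fun i =>
    Pool.Agent.W392.CG.span_top (hn i) (ℓ i) (hr i)
  have hlx : ∀ i k, Pool.Agent.W602.Cov.G.lf (ℓ i k) (x i) ≠ 0 := fun i k =>
    Pool.Agent.TH152.AC.lf_ne (hx0 i) (hind.comp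
      (fun j : Fin (n i) => (⟨i, j⟩ : (i : Fin m) × Fin (n i))) (fun j j' h => by simpa using h))
      (hℓ i k)
  let e : ((i : Fin m) × Fin (n i)) ≃ Fin (∑ i, n i) := finSigmaFinEquiv
  have huu : AlgebraicIndependent ℂ (Pool.Agent.TH756.PR.uu e x) :=
    hind.comp e.symm e.symm.injective
  have hrange : Set.range (Pool.Agent.TH756.PR.uu e x) = Set.range (affine x) :=
    e.symm.surjective.range_comp (affine x)
  have htr : Algebra.trdeg ℂ (BaseField x) = (∑ i, n i : ℕ) := by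
    have h1 : AlgebraicIndependent ℂ (Pool.Agent.TH756.PR.uu e x) := huu
    have h2 := Pool.Agent.X180.Multi.trdeg_adjoin h1
    rw [hrange] at h2
    exact h2
  have hhigh : ∀ τ : ℝ, (∃ C : ℚ → Prop, Multiplicities y ℓ x d C ∧
      ∀ v : ∀ i, Fin (q i) → ℕ, ∀ k : ∀ i, Fin (q i), C (∑ i, (v i (k i) : ℚ) / d i) →
        τ ≤ ∑ i, (v i (k i) : ℝ) / d i) →
      ∀ P ∈ {P | IsPrimeDivisor y P}, Divisorial (∑ i, n i + s) P →
        Pool.Agent.X180.Multi.High ℓ x d (τ * (1 - 0)) P := by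
    rintro τ ⟨C, hC, hτ⟩ P hP _ a v hord hsp hv0
    have h1 := Pool.Agent.TH756.PR.nrm hspan hlx hord hsp
    obtain ⟨k, hk⟩ := hC P hP a v h1.1 h1.2.1 h1.2.2 hv0
    refine ⟨k, ?_⟩
    rw [sub_zero, mul_one]
    exact hτ v k hk
  refine ⟨(Pool.Agent.X180.Multi.multi_fib (X := {P | IsPrimeDivisor y P}) e d hd1 hspan
    (fun i => Pool.Agent.TH756.PR.slack_of_bnd (hn i) (hℓ i) (hr i) (hd' i)) hlx hx0 huu hK htr
    (fun j => IntermediateField.subset_adjoin ℂ _ ⟨e.symm j, rfl⟩)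
    (fun f hf => by
      rw [hrange]
      exact Pool.Agent.X180.Multi.isAlgebraic_of_mem_adjoin hf)
    (δ₁ := fun _ => 0) (fun _ _ => le_rfl) (fun _ _ => by simp) le_rfl
    (hhigh 1 ⟨_, hm, fun v k hk => ?_⟩) hM hθ hne).1, fun hm' => ?_⟩
  · have h1 := (Rat.cast_le (K := ℝ)).2 hk
    push_cast at h1
    exact h1
  · obtain ⟨T, hT⟩ : ∃ T, T = ∏ i, d i := ⟨_, rfl⟩
    have hTpos : 0 < T := by
      rw [hT]
      exact Finset.prod_pos fun i _ => hd1 i
    have hTr : (0 : ℝ) < T := by exact_mod_cast hTpos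
    refine (Pool.Agent.X180.Multi.multi_fib (X := {P | IsPrimeDivisor y P}) e d hd1 hspan
      (fun i => Pool.Agent.TH756.PR.slack_of_bnd (hn i) (hℓ i) (hr i) (hd' i)) hlx hx0 huu hK htr
      (fun j => IntermediateField.subset_adjoin ℂ _ ⟨e.symm j, rfl⟩)
      (fun f hf => by
        rw [hrange]
        exact Pool.Agent.X180.Multi.isAlgebraic_of_mem_adjoin hf)
      (δ₁ := fun _ => 0) (τ := 1 + 1 / T) (fun _ _ => le_rfl) (fun _ _ => by simp)
      (by
        have : (0 : ℝ) < 1 / T := by positivity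
        linarith)
      (hhigh _ ⟨_, hm', fun v k hk => ?_⟩) hM hθ hne).2 (by
        have : (0 : ℝ) < 1 / T := by positivity
        linarith)
    have hint : ∑ i, (v i (k i) : ℚ) / d i =
        ((∑ i, v i (k i) * ∏ j ∈ Finset.univ.erase i, d j : ℕ) : ℚ) / T := by
      push_cast
      rw [Finset.sum_div]
      refine Finset.sum_congr rfl fun i _ => ?_
      have hdi : (d i : ℚ) ≠ 0 := by
        have := hd1 i
        positivity
      have h5 : (T : ℚ) = (∏ j ∈ Finset.univ.erase i, (d j : ℚ)) * d i := by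
        rw [hT, ← Finset.prod_erase_mul _ _ (Finset.mem_univ i)]
        push_cast
        rfl
      have h6 : (∏ j ∈ Finset.univ.erase i, (d j : ℚ)) ≠ 0 :=
        Finset.prod_ne_zero_iff.2 fun j _ => by
          have := hd1 j
          positivity
      rw [h5]
      field_simp
    have hTq : (0 : ℚ) < T := by exact_mod_cast hTpos
    have hge : 1 + 1 / (T : ℚ) ≤ ∑ i, (v i (k i) : ℚ) / d i := by
      change 1 < ∑ i, (v i (k i) : ℚ) / d i at hk
      rw [hint] at hk ⊢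
      rw [lt_div_iff₀ hTq, one_mul] at hk
      rw [le_div_iff₀ hTq, add_mul, one_mul, one_div, inv_mul_cancel₀ hTq.ne']
      exact_mod_cast hk
    have h1 := (Rat.cast_le (K := ℝ)).2 hge
    push_cast at h1
    exact h1

/-- **Abundance for towers over products of projective spaces.** -/
theorem main {m : ℕ} (n q : Fin m → ℕ) (hn : ∀ i, 1 ≤ n i)
    (ℓ : ∀ i, Fin (q i) → Form (n i)) (hℓ : ∀ i k, ℓ i k ≠ 0) (hr : ∀ i, ¬ Reducible (ℓ i))
    (d : Fin m → ℕ) (hd : ∀ i, Bound (ℓ i) (d i)) (K : Type) [Field K] [Algebra ℂ K]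
    (N l : ℕ) (E : Fin (l + 1) → IntermediateField ℂ K) (D : Fin (l + 1) → ℕ) (e : Fin l → ℕ)
    (c : ℕ) (r s : Fin c → ℕ) (y : Fin (N + 1) → K)
    (hy : IsCanonicalVariety y (D (Fin.last l) + ∑ j, r j)) (x : ∀ i, Fin (n i + 1) → K)
    (hx0 : ∀ i, x i 0 ≠ 0) (hind : AlgebraicIndependent ℂ (affine x)) (hE0 : E 0 = BaseField x)
    (hT : IsTower E D e) (hm : Multiplicities y ℓ x d fun z => 1 ≤ z)
    (w : ∀ j, Fin (s j) → ℚ) (hF : Fibres y (E (Fin.last l)) r s w) :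
    Nonvanishing y (D (Fin.last l) + ∑ j, r j) (∑ i, e i + big r s w) r s w ∧
      (Multiplicities y ℓ x d (fun z => 1 < z) →
        Abundance y (D (Fin.last l) + ∑ j, r j) (D (Fin.last l)) r s w) := by
  obtain ⟨hw, K', _, _, _, _, _, A, u, hA, hu, hH, hC⟩ := hF
  obtain ⟨κ, hκ, hκs⟩ := exists_idx r s w
  have htr : D 0 = ∑ i, n i := by
    let e : ((i : Fin m) × Fin (n i)) ≃ Fin (∑ i, n i) := finSigmaFinEquiv
    have h2 := Pool.Agent.X180.Multi.trdeg_adjoin (hind.comp e.symm e.symm.injective)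
    have hrange : Set.range (affine x ∘ e.symm) = Set.range (affine x) :=
      e.symm.surjective.range_comp (affine x)
    rw [hrange] at h2
    have h3 := (hT.1 0).2
    rw [hE0] at h3
    exact_mod_cast h3.symm.trans h2
  have hsum : D (Fin.last l) = ∑ i, n i + ∑ i, e i := by
    rw [dims fun i => (hT.2 i).2.1, htr]
  have h1 : ∀ hws : (∀ j, (r j + 1 : ℚ) ≤ ∑ i, w j i),
      Pool.Agent.X180.Tow.HasForms (∑ i, n i + (∑ i, e i + ∑ j, r j)) {P | IsPrimeDivisor y P}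
        (fun _ => 0) (BaseField x) (∑ i, e i + ∑ j, r j) (∑ i, e i + big r s w) := by
    intro hws
    have h0 : Pool.Agent.X180.Tow.HasForms (D (Fin.last l) + ∑ j, r j) {P | IsPrimeDivisor y P}
        (fun _ => 0) (E (Fin.last l)) (∑ j, r j) (big r s w) :=
      lc_low (N := D (Fin.last l) + ∑ j, r j)
        (Pool.Agent.X180.Iso.trdeg_rel' hy.2.1 (hT.1 _).2) hA finSigmaFinEquiv hu
        (fun j i => ((hw j).2 i).1) hws hκ hκs (fun _ _ => le_rfl) hH
    have h1 := tower_forms hT hy.2.1 rfl h0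
    rw [hsum, hE0, add_assoc] at h1
    exact h1
  have hK : Algebra.trdeg ℂ K = (∑ i, n i + (∑ i, e i + ∑ j, r j) : ℕ) := by
    rw [hy.2.1, hsum, add_assoc]
  have h2 := fun hws => base_kod hn hℓ hr hd hx0 hind hK hm (h1 hws)
  refine ⟨nonvanishing_of hy (by omega) hw hA hu hC fun hws => ?_,
    fun hm' => abundance_of hy hw hA hu hC fun hws => ?_⟩
  · rw [hsum, add_assoc]
    exact (h2 hws).1
  · have h3 := (h2 hws).2 hm'
    rw [hsum, add_assoc, add_assoc (∑ i, n i)]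
    exact h3

end Pool.Agent.X180.TP
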