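import Pool.Agent.Y191.LcRam
import Pool.Agent.W602.Cov.Defs

/-!
Definitions for towers of fibrations over products of projective spaces.
-/

set_option autoImplicit false

open FF Module Pool.Agent.W602.Cov Pool.Agent.W602.GT Pool.Agent.Y172 Pool.Agent.Y191

namespace Pool.Agent.X180.TP

section base

/-- In suitable linear coordinates `X 0, ..., X n` each of the hyperplanes is one of `X j = 0` or
`X 0 + ... + X n = 0`. The arrangements with this property which are not reducible are, up to
repetitions, the arrangements of `n + 2` hyperplanes in general position. -/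
def Simplicial {n q : ℕ} (ℓ : Fin q → Form n) : Prop :=
  ∃ X : Basis (Fin (n + 1)) ℂ (Form n), ∀ i,
    (∃ c : ℂ, ℓ i = c • ∑ j, X j) ∨ ∃ (j : Fin (n + 1)) (c : ℂ), ℓ i = c • X j

/-- The bound for one arrangement in projective `n`-space: `n + 2`, and even `n + 1` if the
arrangement does not consist of `n + 2` hyperplanes in general position. -/
def Bound {n q : ℕ} (ℓ : Fin q → Form n) (d : ℕ) : Prop :=
  d = n + 2 ∨ (d = n + 1 ∧ ¬ Simplicial ℓ)

/-- The value of a linear form at a vector over `K`. -/
noncomputable def form {n : ℕ} {K : Type} [Field K] [Algebra ℂ K] (φ : Form n)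
    (x : Fin (n + 1) → K) : K := ∑ j, algebraMap ℂ K (φ (Pi.single j 1)) * x j

variable {m : ℕ} {n q : Fin m → ℕ} {K : Type} [Field K] [Algebra ℂ K]

/-- The affine coordinates `x i (j + 1) / x i 0` of the points with the homogeneous coordinates
`x i`. -/
def affine (x : ∀ i, Fin (n i + 1) → K) (b : (i : Fin m) × Fin (n i)) : K :=
  x b.1 b.2.succ / x b.1 0

/-- The function field of the product of the projective spaces. -/
noncomputable def BaseField (x : ∀ i, Fin (n i + 1) → K) : IntermediateField ℂ K :=
  IntermediateField.adjoin ℂ (Set.range (affine x))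

/-- The multiplicities over the arrangements of a variety with function field `K` and homogeneous
coordinates `x i` of a rational map to the product of the projective spaces: at every prime divisor
`P` of `X` the hyperplane `ℓ i k` has the order `a i + v i k`, where `a i` is the minimum of the orders
of all linear forms on the `i`-th factor, and if some `v i k` is not `0` then
`∑ i, v i (k i) / d i` has the property `C` for some `k`. -/
def Multiplicities {N : ℕ} (y : Fin (N + 1) → K) (ℓ : ∀ i, Fin (q i) → Form (n i))
    (x : ∀ i, Fin (n i + 1) → K) (d : Fin m → ℕ) (C : ℚ → Prop) : Prop :=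
  ∀ P : Place ℂ K, IsPrimeDivisor y P → ∀ (a : Fin m → ℤ) (v : ∀ i, Fin (q i) → ℕ),
    (∀ i (φ : Form (n i)), form φ (x i) = 0 ∨ a i ≤ P.ord (form φ (x i))) →
    (∀ i, ∃ φ : Form (n i), form φ (x i) ≠ 0 ∧ P.ord (form φ (x i)) = a i) →
    (∀ i k, P.ord (form (ℓ i k) (x i)) = a i + v i k) → (∃ i, v i ≠ 0) →
    ∃ k : ∀ i, Fin (q i), C (∑ i, (v i (k i) : ℚ) / d i)

end base

section

variable {K : Type} [Field K] [Algebra ℂ K] {N : ℕ}

/-- `X` is a projective variety of dimension `n` with canonical singularities. -/
def IsCanonicalVariety (y : Fin (N + 1) → K) (n : ℕ) : Prop :=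
  NormalModel y ∧ Algebra.trdeg ℂ K = n ∧ Canonical y n

/-- The subfield `L` of `K` as a subfield of `E`, if `L` is contained in `E`. -/
noncomputable def below (E L : IntermediateField ℂ K) : IntermediateField ℂ E := L.comap E.val

/-- Let `F` and `L` be the function fields of varieties `W`, of dimension `D`, and `Z`, with a dominant
rational map from `W` to `Z`. The fibres, of dimension `e`, correspond to moving log canonical
arrangements of log general type: there is a finite extension `K'` of `F`, and the `u ⟨j, k⟩` are the
affine coordinates of a generically finite map, over `Z`, of a variety with the function field `K'` to a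
product of projective spaces of dimensions `r j ≥ 1`; `A j i` are the coefficients of hyperplanes,
algebraic over `L`, with weights `w j i` such that the arrangement is log canonical (`LcArr`), and the
sums of the weights are greater than `r j + 1`. The multiplicities are bounded at the places over the
prime divisors of the models of `W` which dominate `Z` (`LcHor`). -/
def GeneralTypeFibres (F : Type) [Field F] [Algebra ℂ F] (L : IntermediateField ℂ F)
    (D e : ℕ) : Prop :=
  ∃ (c : ℕ) (r s : Fin c → ℕ) (w : ∀ j, Fin (s j) → ℚ), e = ∑ j, r j ∧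
  (∀ j, 1 ≤ r j ∧ (∀ i, 0 ≤ w j i) ∧ (r j + 1 : ℚ) < ∑ i, w j i) ∧
  ∃ (K' : Type) (_ : Field K') (_ : Algebra ℂ K') (_ : Algebra F K') (_ : IsScalarTower ℂ F K')
    (_ : FiniteDimensional F K') (A : ∀ j, Fin (s j) → Fin (r j + 1) → K')
    (u : (Σ j, Fin (r j)) → K'),
    LcArr (upF K' L) A w ∧ IsTranscendenceBasis (upF K' L) u ∧
    LcHor L A u w {p | Divisorial D p} (fun _ => 0)

/-- Let `F` and `L` be the function fields of varieties `W` and `Z`, with a dominant rational map from
`W` to `Z`. After a generically finite base change `Z' → Z` the variety `W ×_Z Z'` has a generically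
finite rational map to `Z' × V`, where `V` is a smooth projective variety of general type of dimension
`e`: there is an extension `K'` of `F`, the function field of `W ×_Z Z'`, generated by an element `α`
which is algebraic over `L`, and a subfield `M` of `K'`, the function field of `V`, such that `K'` is
algebraic over the field generated by `M` and the elements which are algebraic over `L`.
`KodGe ℂ M e (fun _ => False) e`: the Kodaira dimension of `V` is at least `e`. -/
def DominatesConstant (F : Type) [Field F] [Algebra ℂ F] (L : IntermediateField ℂ F)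
    (e : ℕ) : Prop :=
  ∃ (K' : Type) (_ : Field K') (_ : Algebra ℂ K') (_ : Algebra F K') (_ : IsScalarTower ℂ F K')
    (α : K') (M : IntermediateField ℂ K'),
    IsAlgebraic L α ∧ IntermediateField.adjoin F {α} = ⊤ ∧
    Algebra.EssFiniteType ℂ M ∧ Algebra.trdeg ℂ M = e ∧ KodGe ℂ M e (fun _ => False) e ∧
    ∀ z : K', IsAlgebraic (IntermediateField.adjoin ℂ ({a : K' | IsAlgebraic L a} ∪ M)) z

/-- The tower `W_l ⇢ ... ⇢ W_1 ⇢ W_0`: the `E i` are the function fields of varieties of dimensions
`D i`, each contained in the next one, and the fibres of `W_{i+1}` over `W_i`, of dimension `e i`, are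
as in `GeneralTypeFibres` or as in `DominatesConstant`, for each `i < l`. -/
def IsTower {l : ℕ} (E : Fin (l + 1) → IntermediateField ℂ K) (D : Fin (l + 1) → ℕ)
    (e : Fin l → ℕ) : Prop :=
  (∀ i, Algebra.EssFiniteType ℂ (E i) ∧ Algebra.trdeg ℂ (E i) = D i) ∧
  ∀ i : Fin l, E i.castSucc ≤ E i.succ ∧ D i.succ = D i.castSucc + e i ∧
    (GeneralTypeFibres (E i.succ) (below (E i.succ) (E i.castSucc)) (D i.succ) (e i) ∨
      DominatesConstant (E i.succ) (below (E i.succ) (E i.castSucc)) (e i))

/-- There is a finite extension `K'` of `K`, and the `u ⟨j, k⟩` are the affine coordinates of a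
generically finite map, over the variety with the function field `E`, of a variety with the function
field `K'` to a product of projective spaces of dimensions `r j ≥ 1`; `A j i` are the coefficients of
hyperplanes, algebraic over `E`, with weights `w j i` in `[0, 1]` such that the arrangement is log
canonical (`LcArr`). The multiplicities are bounded at the places over the prime divisors of `X`
which are trivial on `E` (`LcHor`) and at the places over the prime divisors of the product
(`RamK`). -/
def Fibres (y : Fin (N + 1) → K) (E : IntermediateField ℂ K) {c : ℕ}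
    (r s : Fin c → ℕ) (w : ∀ j, Fin (s j) → ℚ) : Prop :=
  (∀ j, 1 ≤ r j ∧ ∀ i, 0 ≤ w j i ∧ w j i ≤ 1) ∧
  ∃ (K' : Type) (_ : Field K') (_ : Algebra ℂ K') (_ : Algebra K K') (_ : IsScalarTower ℂ K K')
    (_ : FiniteDimensional K K') (A : ∀ j, Fin (s j) → Fin (r j + 1) → K')
    (u : (Σ j, Fin (r j)) → K'),
    LcArr (upF K' E) A w ∧ IsTranscendenceBasis (upF K' E) u ∧
    LcHor E A u w {P | IsPrimeDivisor y P} (fun _ => 0) ∧ RamK K (upF K' E) A u w

/-- the sum of the dimensions `r j` for which the sum of the weights is greater than `r j + 1` -/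
def big {c : ℕ} (r s : Fin c → ℕ) (w : ∀ j, Fin (s j) → ℚ) : ℕ :=
  ∑ j, if (r j + 1 : ℚ) < ∑ i, w j i then r j else 0

/-- If the sums of the weights are at least `r j + 1` then the Kodaira dimension and the numerical
dimension (with respect to any effective integral divisor `A`) of `K_X` are `p + big`; otherwise both
are `-∞`. -/
def Abundance (y : Fin (N + 1) → K) (n p : ℕ) {c : ℕ} (r s : Fin c → ℕ)
    (w : ∀ j, Fin (s j) → ℚ) : Prop :=
  ((∀ j, (r j + 1 : ℚ) ≤ ∑ i, w j i) → kodairaDim y n 0 = ((p + big r s w : ℕ) : WithBot ℕ) ∧
    ∀ A, Effective y A → Integral y A → numericalDim y n 0 A = ((p + big r s w : ℕ) : EReal)) ∧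
  ((∃ j, ∑ i, w j i < (r j + 1 : ℚ)) → kodairaDim y n 0 = ⊥ ∧
    ∀ A, Effective y A → numericalDim y n 0 A = ⊥)

/-- If the sums of the weights are at least `r j + 1` then the Kodaira dimension of `X` is at least
`k`; otherwise the Kodaira dimension and the numerical dimension (with respect to any effective
divisor `A`) are `-∞`. -/
def Nonvanishing (y : Fin (N + 1) → K) (n k : ℕ) {c : ℕ} (r s : Fin c → ℕ)
    (w : ∀ j, Fin (s j) → ℚ) : Prop :=
  ((∀ j, (r j + 1 : ℚ) ≤ ∑ i, w j i) → (k : WithBot ℕ) ≤ kodairaDim y n 0) ∧
  ((∃ j, ∑ i, w j i < (r j + 1 : ℚ)) → kodairaDim y n 0 = ⊥ ∧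
    ∀ A, Effective y A → numericalDim y n 0 A = ⊥)

end


end Pool.Agent.X180.TP
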